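import Pool.Agent.W345.VO.Stm

namespace Pool.Agent.W214.VO

open Pool.Agent.W345.VO

universe u

variable {M : Type u} [AddCommGroup M] [Module ℂ M]

lemma key (ρ : Rep M) (P : Submodule ℂ M)
    (hP : ∀ (l : ℕ) (w : M), w ∈ P → ρ.h (-(l : ℤ) - 1) w ∈ P) (G : ℤ → Module.End ℂ M)
    (s κ : ℤ) (hs : s = 1 ∨ s = -1) (w : M) (hOm : ρ.Om w) (h0 : ρ.h 0 w = (κ : ℂ) • w)
    (hT : ∀ m : ℤ, ∑ᶠ i : ℕ, (ρ.h (-1 - i) (G (m + i) w) + G (m - 1 - i) (ρ.h i w)) =
      ((s : ℂ) * m) • G (m - 1) w)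
    (hz : ∀ n, s * κ - 1 < n → G n w = 0) (ht : G (s * κ - 1) w ∈ P) : ∀ n, G n w ∈ P := by
  have hss : (s : ℂ) * s = 1 := by
    rcases hs with h | h <;> rw [h] <;> norm_num
  have hs0 : (s : ℂ) ≠ 0 := by
    intro h
    rw [h] at hss
    simp at hss
  have main : ∀ r : ℕ, G (s * κ - 1 - r) w ∈ P := by
    intro r
    induction r using Nat.strong_induction_on with
    | _ r ih =>
      rcases Nat.eq_zero_or_pos r with hr | hr
      · subst hr
        simpa using ht
      · have h1 := hT (s * κ - r)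
        have hsup : Function.support (fun i : ℕ => ρ.h (-1 - i) (G (s * κ - r + i) w) +
            G (s * κ - r - 1 - i) (ρ.h i w)) ⊆ ((Finset.range r : Finset ℕ) : Set ℕ) := by
          intro i hi
          rw [Finset.coe_range, Set.mem_Iio]
          by_contra hle
          push Not at hle
          apply hi
          have hi1 : (0 : ℤ) < i := by omega
          have e1 : G (s * κ - r + i) w = 0 := hz _ (by omega)
          have e2 : ρ.h i w = 0 := hOm i hi1
          simp only [e1, e2, map_zero, add_zero]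
        rw [finsum_eq_sum_of_support_subset _ hsup, Finset.sum_add_distrib] at h1
        have h2 : ∑ i ∈ Finset.range r, G (s * κ - r - 1 - i) (ρ.h i w) =
            (κ : ℂ) • G (s * κ - r - 1) w := by
          rw [Finset.sum_eq_single 0]
          · simp [h0]
          · intro i _ hi
            have : ρ.h (i : ℤ) w = 0 := hOm i (by omega)
            rw [this, map_zero]
          · intro h
            exact absurd (Finset.mem_range.mpr hr) h
        rw [h2] at h1
        have h3 : ∑ i ∈ Finset.range r, ρ.h (-1 - i) (G (s * κ - r + i) w) ∈ P := by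
          refine Submodule.sum_mem _ fun i hi => ?_
          have hi' := Finset.mem_range.mp hi
          have e1 : (-1 - (i : ℤ)) = -(i : ℤ) - 1 := by ring
          rw [e1]
          apply hP
          have e2 : s * κ - (r : ℤ) + i = s * κ - 1 - ((r - 1 - i : ℕ) : ℤ) := by omega
          rw [e2]
          exact ih _ (by omega)
        have h4 : (-(s : ℂ) * r) • G (s * κ - r - 1) w =
            ∑ i ∈ Finset.range r, ρ.h (-1 - i) (G (s * κ - r + i) w) := by
          have e3 : (s : ℂ) * ((s * κ - r : ℤ) : ℂ) = κ - s * r := by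
            push_cast
            linear_combination (κ : ℂ) * hss
          rw [e3, sub_smul] at h1
          rw [neg_mul, neg_smul]
          have := eq_sub_of_add_eq h1
          rw [this]
          abel
        have h5 : G (s * κ - r - 1) w ∈ P := by
          have hc : (-(s : ℂ) * r) ≠ 0 := by
            apply mul_ne_zero (neg_ne_zero.mpr hs0)
            exact_mod_cast hr.ne'
          rw [← Submodule.smul_mem_iff P hc, h4]
          exact h3
        have e4 : s * κ - 1 - (r : ℤ) = s * κ - r - 1 := by ring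
        rw [e4]
        exact h5
  intro n
  rcases lt_or_ge (s * κ - 1) n with h | h
  · rw [hz n h]
    exact P.zero_mem
  · have e : n = s * κ - 1 - ((s * κ - 1 - n).toNat : ℤ) := by
      rw [Int.toNat_of_nonneg (by omega)]
      ring
    rw [e]
    exact main _

lemma PS_sub (ρ : Rep M) (W : Set M) : W ⊆ ρ.PS W := by
  intro x hx
  unfold Rep.PS
  rw [SetLike.mem_coe, Submodule.mem_sInf]
  intro S hS
  exact hS.1 hx

lemma PS_closed (ρ : Rep M) (W : Set M) (l : ℕ) (w : M) (hw : w ∈ ρ.PS W) :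
    ρ.h (-(l : ℤ) - 1) w ∈ ρ.PS W := by
  unfold Rep.PS at hw ⊢
  rw [Submodule.mem_sInf] at hw ⊢
  intro S hS
  exact hS.2 l w (hw S hS)

lemma PS_le (ρ : Rep M) (W : Set M) (S : Submodule ℂ M) (h1 : W ⊆ S)
    (h2 : ∀ (l : ℕ) (w : M), w ∈ S → ρ.h (-(l : ℤ) - 1) w ∈ S) : ρ.PS W ≤ S :=
  sInf_le ⟨h1, h2⟩

theorem cst : S_CST.{u} := by
  intro M _ _ ρ k y hy
  obtain ⟨P, hPdef⟩ : ∃ P, P = ρ.PS (Set.range y) := ⟨_, rfl⟩
  rw [← hPdef]
  have hyP : ∀ j, y j ∈ P := by
    intro j
    rw [hPdef]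
    exact PS_sub ρ _ ⟨j, rfl⟩
  have hP : ∀ (l : ℕ) (w : M), w ∈ P → ρ.h (-(l : ℤ) - 1) w ∈ P := by
    intro l w hw
    rw [hPdef] at hw ⊢
    exact PS_closed ρ _ l w hw
  have hmin : ∀ S : Submodule ℂ M, (∀ j, y j ∈ S) →
      (∀ (l : ℕ) (w : M), w ∈ S → ρ.h (-(l : ℤ) - 1) w ∈ S) → P ≤ S := by
    intro S h1 h2
    rw [hPdef]
    exact PS_le ρ _ S (by rintro _ ⟨j, rfl⟩; exact h1 j) h2
  have hE : ∀ j n, ρ.E n (y j) ∈ P := by
    intro j
    refine key ρ P hP ρ.E (-1) (k + 2 * j) (Or.inr rfl) (y j) (hy.om j) (hy.eig j) ?_ ?_ ?_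
    · intro m
      rw [ρ.TE m (y j)]
      push_cast
      rw [neg_one_mul]
    · intro n hn
      exact hy.E0 j n (by linarith)
    · have e : (-1 : ℤ) * (k + 2 * j) - 1 = -(k + 2 * j) - 1 := by ring
      rw [e, hy.up j]
      exact hyP _
  have hF : ∀ j n, ρ.F n (y j) ∈ P := by
    intro j
    refine key ρ P hP ρ.F 1 (k + 2 * j) (Or.inl rfl) (y j) (hy.om j) (hy.eig j) ?_ ?_ ?_
    · intro m
      rw [ρ.TF m (y j)]
      push_cast
      rw [one_mul]
    · intro n hn
      exact hy.F0 j n (by linarith)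
    · have e : (1 : ℤ) * (k + 2 * j) - 1 = k + 2 * j - 1 := by ring
      rw [e, hy.down j]
      exact hyP _
  have hH : ∀ j n, ρ.h n (y j) ∈ P := by
    intro j n
    rcases lt_trichotomy n 0 with h | h | h
    · have e : n = -((-n - 1).toNat : ℤ) - 1 := by
        rw [Int.toNat_of_nonneg (by omega)]
        ring
      rw [e]
      exact hP _ _ (hyP j)
    · rw [h, hy.eig j]
      exact P.smul_mem _ (hyP j)
    · rw [hy.om j n h]
      exact P.zero_mem
  constructor
  · -- stability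
    have hS : P ≤ P ⊓ ⨅ n : ℤ, (P.comap (ρ.h n) ⊓ (P.comap (ρ.E n) ⊓ P.comap (ρ.F n))) := by
      refine hmin _ ?_ ?_
      · intro j
        refine Submodule.mem_inf.mpr ⟨hyP j, ?_⟩
        rw [Submodule.mem_iInf]
        intro n
        exact ⟨hH j n, hE j n, hF j n⟩
      · intro l w hw
        obtain ⟨hw1, hw2⟩ := Submodule.mem_inf.mp hw
        rw [Submodule.mem_iInf] at hw2
        refine Submodule.mem_inf.mpr ⟨hP l w hw1, ?_⟩
        rw [Submodule.mem_iInf]
        intro n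
        obtain ⟨a1, a2, a3⟩ := hw2 n
        refine ⟨?_, ?_, ?_⟩
        · show ρ.h n (ρ.h (-(l : ℤ) - 1) w) ∈ P
          have := ρ.hh n (-(l : ℤ) - 1) w
          rw [sub_eq_iff_eq_add] at this
          rw [this]
          exact P.add_mem (P.smul_mem _ hw1) (hP l _ a1)
        · show ρ.E n (ρ.h (-(l : ℤ) - 1) w) ∈ P
          have := ρ.hE (-(l : ℤ) - 1) n w
          have h2 : ρ.E n (ρ.h (-(l : ℤ) - 1) w) = ρ.h (-(l : ℤ) - 1) (ρ.E n w) -
              (2 : ℂ) • ρ.E (-(l : ℤ) - 1 + n) w := by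
            rw [← this]; abel
          rw [h2]
          exact P.sub_mem (hP l _ a2) (P.smul_mem _ (hw2 _).2.1)
        · show ρ.F n (ρ.h (-(l : ℤ) - 1) w) ∈ P
          have := ρ.hF (-(l : ℤ) - 1) n w
          have h2 : ρ.F n (ρ.h (-(l : ℤ) - 1) w) = ρ.h (-(l : ℤ) - 1) (ρ.F n w) -
              (-2 : ℂ) • ρ.F (-(l : ℤ) - 1 + n) w := by
            rw [← this]; abel
          rw [h2]
          exact P.sub_mem (hP l _ a3) (P.smul_mem _ (hw2 _).2.2)
    intro n w hw
    have h1 := (Submodule.mem_inf.mp (hS hw)).2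
    rw [Submodule.mem_iInf] at h1
    exact h1 n
  · -- gradedness
    unfold Rep.Gr
    refine le_antisymm ?_ (iSup_le fun d => inf_le_left)
    refine hmin _ ?_ ?_
    · intro j
      obtain ⟨d, hd⟩ := hy.hom j
      exact (le_iSup (fun d : ℕ => P ⊓ ρ.deg d) d) ⟨hyP j, hd⟩
    · intro l w hw
      have h1 : (⨆ d : ℕ, P ⊓ ρ.deg d) ≤
          (⨆ d : ℕ, P ⊓ ρ.deg d).comap (ρ.h (-(l : ℤ) - 1)) := by
        refine iSup_le fun d => ?_
        rintro x ⟨hx1, hx2⟩
        show ρ.h (-(l : ℤ) - 1) x ∈ ⨆ d : ℕ, P ⊓ ρ.deg d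
        refine (le_iSup (fun d : ℕ => P ⊓ ρ.deg d) (d + l + 1)) ⟨hP l x hx1, ?_⟩
        exact (ρ.h_deg (-(l : ℤ) - 1) d x hx2).1 (d + l + 1) (by push_cast; ring)
      exact h1 hw

end Pool.Agent.W214.VO
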